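import Pool.Agent.Q35.MM.Stm

/-! # Project MM of helper35: JOB MM-FS, the descent step for the points -/

set_option autoImplicit false

namespace Pool.Agent.Q92.MM

open Finset Function Pool.Agent.Q35.MM

section lin

variable {K : Type} [Field K] {ι : Type} [DecidableEq ι] {n : ι → ℕ} {k : ℕ}

/-- the zeros of the system of the linear forms in the `i`-th argument -/
noncomputable def Vs (f : Fin k → Frm K n) (P : Tup K n) (i : ι) : Submodule K (Fin (n i + 1) → K) :=
  (Submodule.span K (Set.range (lin f P i))).dualCoannihilator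

lemma lin_apply (f : Fin k → Frm K n) (P : Tup K n) (i : ι) (t : Fin k) (z : Fin (n i + 1) → K) :
    lin f P i t z = f t (update P i z) := rfl

lemma lin_update (f : Fin k → Frm K n) (P : Tup K n) (i : ι) (z : Fin (n i + 1) → K) :
    lin f (update P i z) i = lin f P i := by
  funext t
  apply LinearMap.ext
  intro x
  rw [lin_apply, lin_apply, update_idem]

lemma Vs_update (f : Fin k → Frm K n) (P : Tup K n) (i : ι) (z : Fin (n i + 1) → K) :
    Vs f (update P i z) i = Vs f P i := by
  unfold Vs
  rw [lin_update]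

lemma mem_Vs (f : Fin k → Frm K n) (P : Tup K n) (i : ι) (z : Fin (n i + 1) → K) :
    z ∈ Vs f P i ↔ ∀ t, f t (update P i z) = 0 := by
  unfold Vs
  rw [Submodule.mem_dualCoannihilator]
  constructor
  · intro h t
    exact h _ (Submodule.subset_span ⟨t, rfl⟩)
  · intro h φ hφ
    induction hφ using Submodule.span_induction with
    | mem x hx =>
      obtain ⟨t, rfl⟩ := hx
      exact h t
    | zero => rfl
    | add x y _ _ hx hy => rw [LinearMap.add_apply, hx, hy, add_zero]
    | smul a x _ hx => rw [LinearMap.smul_apply, hx, smul_zero]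

lemma finrank_Vs (f : Fin k → Frm K n) (P : Tup K n) (i : ι) :
    Module.finrank K (Submodule.span K (Set.range (lin f P i))) + Module.finrank K (Vs f P i) =
      n i + 1 := by
  have h := Subspace.finrank_add_finrank_dualCoannihilator_eq
    (Submodule.span K (Set.range (lin f P i)))
  rw [Module.finrank_fin_fun] at h
  exact h

lemma finrank_span_le (f : Fin k → Frm K n) (P : Tup K n) (i : ι) :
    Module.finrank K (Submodule.span K (Set.range (lin f P i))) ≤ k := by
  have h := finrank_range_le_card (R := K) (lin f P i)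
  rw [Fintype.card_fin] at h
  exact h

lemma li_iff (f : Fin k → Frm K n) (P : Tup K n) (i : ι) : LinearIndependent K (lin f P i) ↔
    Module.finrank K (Submodule.span K (Set.range (lin f P i))) = k := by
  rw [linearIndependent_iff_card_eq_finrank_span, Fintype.card_fin]
  exact eq_comm

/-- the vectors of a point of `U` are not zero -/
lemma ne_zero_of_InU [Fintype ι] (f : Fin k → Frm K n) (hc : 2 ≤ Fintype.card ι) (hk : 1 ≤ k)
    {P : Tup K n} (hP : InU f P) (l : ι) : P l ≠ 0 := by
  intro h0
  obtain ⟨i, hi⟩ := Fintype.exists_ne_of_one_lt_card (by omega) l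
  have h1 := (hP.2 i).ne_zero ⟨0, hk⟩
  apply h1
  apply LinearMap.ext
  intro z
  rw [lin_apply, LinearMap.zero_apply]
  refine (f _).map_coord_zero l ?_
  rw [update_of_ne (Ne.symm hi)]
  exact h0

/-- counting by fibres -/
lemma card_fib [Fintype ι] [DecidableEq K] (A T : Finset (Tup K n)) (i : ι)
    (Z : Tup K n → Finset (Fin (n i + 1) → K)) (h1 : ∀ P ∈ A, update P i 0 ∈ T)
    (h2 : ∀ P ∈ A, P i ∈ Z (update P i 0)) : A.card ≤ ∑ Q ∈ T, (Z Q).card := by
  rw [← card_sigma]
  refine card_le_card_of_injOn (fun P => (⟨update P i 0, P i⟩ : Sigma fun _ : Tup K n =>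
    (Fin (n i + 1) → K))) (fun P hP => ?_) ?_
  · rw [mem_coe, mem_sigma]
    exact ⟨h1 P hP, h2 P hP⟩
  · intro P _ P' _ h
    simp only [Sigma.mk.injEq, heq_eq_eq] at h
    have e : ∀ R : Tup K n, R = update (update R i 0) i (R i) := by
      intro R
      rw [update_idem, update_eq_self]
    rw [e P, e P', h.1, h.2]

end lin

section box

variable {K : Type} [Field K] [NumberField K]

lemma zero_mem_bx (m b : ℕ) : (0 : Fin m → K) ∈ bx K m b := by
  rw [mem_bx]
  intro a
  refine ⟨isIntegral_zero, fun φ => ?_⟩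
  rw [Pi.zero_apply, map_zero, norm_zero]
  positivity

open Classical in
/-- points of a subspace in a box -/
lemma box_le (hDB : S_DB) {N : ℕ} (V : Submodule K (Fin N → K)) {r : ℕ}
    (hr : Module.finrank K V ≤ r) (hrN : r ≤ N) {B : ℕ} (hB : 1 ≤ B) :
    (((bx K N B).filter (· ∈ V)).card : ℝ) ≤
      3 ^ (dg K * N) * ((bx K N 1).card : ℝ) * (B : ℝ) ^ (dg K * r) := by
  have h1 := hDB K N V r hr B 1 le_rfl hB
  rw [Nat.cast_one, div_one, mul_pow] at h1
  have h2 : (((bx K N 1).filter (· ∈ V)).card : ℝ) ≤ ((bx K N 1).card : ℝ) := by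
    exact_mod_cast card_filter_le _ _
  have h3 : (3 : ℝ) ^ (dg K * r) ≤ 3 ^ (dg K * N) :=
    pow_le_pow_right₀ (by norm_num) (Nat.mul_le_mul_left _ hrN)
  calc (((bx K N B).filter (· ∈ V)).card : ℝ)
      ≤ 3 ^ (dg K * r) * (B : ℝ) ^ (dg K * r) * (((bx K N 1).filter (· ∈ V)).card : ℝ) := h1
    _ ≤ 3 ^ (dg K * N) * (B : ℝ) ^ (dg K * r) * ((bx K N 1).card : ℝ) :=
        mul_le_mul (mul_le_mul_of_nonneg_right h3 (by positivity)) h2 (by positivity) (by positivity)
    _ = _ := by ring

end box

lemma one_le_prod_real {ι : Type} (s : Finset ι) (c : ι → ℝ) (hc : ∀ l, 1 ≤ c l) :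
    1 ≤ ∏ l ∈ s, c l :=
  prod_induction c (fun x => 1 ≤ x) (fun _ _ => one_le_mul_of_one_le_of_one_le) le_rfl
    fun l _ => hc l

lemma prod_le_univ {ι : Type} [Fintype ι] [DecidableEq ι] (s : Finset ι) (c : ι → ℝ)
    (hc : ∀ l, 1 ≤ c l) : ∏ l ∈ s, c l ≤ ∏ l, c l := by
  rw [← prod_mul_prod_compl s c]
  exact le_mul_of_one_le_right (zero_le_one.trans (one_le_prod_real s c hc))
    (one_le_prod_real sᶜ c hc)

open Classical in
theorem fs (hDB : S_DB) : S_FS := by
  intro K _ _ ι _ _ n k f hcard hk hkn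
  set c : ι → ℝ := fun l => 3 ^ (dg K * (n l + 1)) * ((bx K (n l + 1) 1).card : ℝ) with hc
  have hc1 : ∀ l, 1 ≤ c l := by
    intro l
    have h1 : (1 : ℝ) ≤ 3 ^ (dg K * (n l + 1)) := one_le_pow₀ (by norm_num)
    have h2 : (1 : ℝ) ≤ ((bx K (n l + 1) 1).card : ℝ) := by
      exact_mod_cast card_pos.mpr ⟨0, zero_mem_bx _ _⟩
    exact one_le_mul_of_one_le_of_one_le h1 h2
  have hD1 : 1 ≤ ∏ l, c l := one_le_prod_real _ c hc1
  have hcD : ∀ l, c l ≤ ∏ l, c l := fun l => by
    have h := prod_le_univ {l} c hc1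
    rw [prod_singleton] at h
    exact h
  refine ⟨∏ l, c l, by linarith, ?_⟩
  set D := ∏ l, c l with hD
  intro b i ρ hb hρ hρb
  set b' := update b i ρ with hb'
  have hb'i : b' i = ρ := update_self _ _ _
  have hb'n : ∀ l, l ≠ i → b' l = b l := fun l hl => update_of_ne hl _ _
  set A := FF f b with hA
  set S := A.image fun P => update P i 0 with hS
  have hAm : ∀ P ∈ A, (∀ l, P l ∈ bx K (n l + 1) (b l)) ∧ InU f P := by
    intro P hP
    rw [hA] at hP
    unfold FF at hP
    rw [mem_filter, Fintype.mem_piFinset] at hP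
    exact hP
  -- step 1
  have step1 : (A.card : ℝ) ≤
      ∑ Q ∈ S, (((bx K (n i + 1) (b i)).filter (· ∈ Vs f Q i)).card : ℝ) := by
    have h := card_fib A S i (fun Q => (bx K (n i + 1) (b i)).filter (· ∈ Vs f Q i))
      (fun P hP => mem_image_of_mem _ hP) (fun P hP => by
        rw [mem_filter, Vs_update, mem_Vs]
        refine ⟨(hAm P hP).1 i, fun t => ?_⟩
        rw [update_eq_self]
        exact (hAm P hP).2.1 t)
    exact_mod_cast h
  -- step 2
  have step2 : ∀ Q ∈ S, (((bx K (n i + 1) (b i)).filter (· ∈ Vs f Q i)).card : ℝ) ≤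
      (3 * (b i : ℝ) / ρ) ^ (dg K * (n i + 1 - k)) *
        (((bx K (n i + 1) ρ).filter (· ∈ Vs f Q i)).card : ℝ) := by
    intro Q hQ
    rw [hS, mem_image] at hQ
    obtain ⟨P, hP, rfl⟩ := hQ
    refine hDB K _ _ _ ?_ _ _ hρ hρb
    rw [Vs_update]
    have h1 := finrank_Vs f P i
    rw [(li_iff f P i).mp ((hAm P hP).2.2 i)] at h1
    omega
  -- the sets
  set R2 : Finset (Tup K n) :=
    Fintype.piFinset fun l => if l = i then {0} else bx K (n l + 1) (b l) with hR2
  let R3 : ι → ℕ → Finset (Tup K n) := fun j e =>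
    (Fintype.piFinset fun l => bx K (n l + 1) (b' l)).filter fun P =>
      update P j 0 ∈ TT f e j b' ∧ P j ∈ Vs f P j
  have step3 : (∑ Q ∈ S, ((bx K (n i + 1) ρ).filter (· ∈ Vs f Q i)).card) ≤
      (FF f b' ∪ (R2 ∪ (univ.erase i).biUnion fun j => (Icc 1 k).biUnion fun e => R3 j e)).card := by
    rw [← card_sigma]
    refine card_le_card_of_injOn (fun x => update x.1 i x.2) ?_ ?_
    · rintro ⟨Q, z⟩ hx
      rw [mem_coe, mem_sigma] at hx
      obtain ⟨hQ, hz⟩ := hx
      simp only at hQ hz
      rw [hS, mem_image] at hQ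
      obtain ⟨P, hP, rfl⟩ := hQ
      rw [mem_filter, Vs_update, mem_Vs] at hz
      obtain ⟨hz1, hz2⟩ := hz
      obtain ⟨hP1, hP2⟩ := hAm P hP
      simp only [update_idem]
      set P' := update P i z with hP'
      have hP'l : ∀ l, P' l ∈ bx K (n l + 1) (b' l) := by
        intro l
        by_cases hl : l = i
        · subst hl
          rw [hP', update_self, hb'i]
          exact hz1
        · rw [hP', update_of_ne hl, hb'n l hl]
          exact hP1 l
      rw [mem_coe, mem_union, mem_union]
      by_cases hU : InU f P'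
      · left
        unfold FF
        rw [mem_filter, Fintype.mem_piFinset]
        exact ⟨hP'l, hU⟩
      right
      by_cases hz0 : z = 0
      · left
        rw [hR2, Fintype.mem_piFinset]
        intro l
        by_cases hl : l = i
        · subst hl
          rw [if_pos rfl, hP', update_self, hz0]
          exact mem_singleton_self _
        · rw [if_neg hl, hP', update_of_ne hl]
          exact hP1 l
      right
      have hnot : ∃ j, ¬ LinearIndependent K (lin f P' j) := by
        by_contra hcon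
        push Not at hcon
        exact hU ⟨hz2, hcon⟩
      obtain ⟨j, hj⟩ := hnot
      have hji : j ≠ i := by
        rintro rfl
        rw [hP', lin_update] at hj
        exact hj (hP2.2 j)
      set r := Module.finrank K (Submodule.span K (Set.range (lin f P' j))) with hr
      have hrk : r ≤ k := finrank_span_le f P' j
      have hrk' : r ≠ k := fun h => hj ((li_iff f P' j).mpr h)
      rw [mem_biUnion]
      refine ⟨j, mem_erase.mpr ⟨hji, mem_univ _⟩, ?_⟩
      rw [mem_biUnion]
      refine ⟨k - r, mem_Icc.mpr ⟨by omega, by omega⟩, ?_⟩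
      rw [mem_filter, Fintype.mem_piFinset]
      refine ⟨hP'l, ?_, ?_⟩
      · unfold TT
        rw [mem_filter]
        refine ⟨?_, ?_⟩
        · unfold QQ
          rw [Fintype.mem_piFinset]
          intro l
          by_cases hl : l = j
          · subst hl
            rw [if_pos rfl, update_self]
            exact mem_singleton_self _
          · rw [if_neg hl, update_of_ne hl, mem_filter]
            refine ⟨hP'l l, ?_⟩
            by_cases hli : l = i
            · subst hli
              rw [hP', update_self]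
              exact hz0
            · rw [hP', update_of_ne hli]
              exact ne_zero_of_InU f hcard hk hP2 l
        · rw [lin_update, ← hr]
          omega
      · rw [mem_Vs]
        intro t
        rw [update_eq_self]
        exact hz2 t
    · rintro ⟨Q, z⟩ hx ⟨Q', z'⟩ hx' h
      rw [mem_coe, mem_sigma] at hx hx'
      have hQ0 : ∀ R ∈ S, update R i 0 = R := by
        intro R hR
        rw [hS, mem_image] at hR
        obtain ⟨P, hP, rfl⟩ := hR
        exact update_idem _ _ _
      simp only at h hx hx'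
      have e1 : Q = Q' := by
        have := congrArg (fun R => update R i 0) h
        simp only [update_idem] at this
        rw [hQ0 Q hx.1, hQ0 Q' hx'.1] at this
        exact this
      have e2 : z = z' := by
        have := congrFun h i
        rw [update_self, update_self] at this
        exact this
      rw [e1, e2]
  -- the cardinality of `R2`
  have hcardR2 : (R2.card : ℝ) ≤ D * ∏ l ∈ univ.erase i, (b l : ℝ) ^ (dg K * (n l + 1)) := by
    rw [hR2, Fintype.card_piFinset, Nat.cast_prod, ← mul_prod_erase univ _ (mem_univ i), if_pos rfl,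
      card_singleton, Nat.cast_one, one_mul]
    have h1 : ∀ l ∈ univ.erase i, (((if l = i then ({0} : Finset (Fin (n l + 1) → K)) else
        bx K (n l + 1) (b l)).card : ℕ) : ℝ) ≤ c l * (b l : ℝ) ^ (dg K * (n l + 1)) := by
      intro l hl
      rw [if_neg (ne_of_mem_erase hl)]
      have h2 := box_le hDB (⊤ : Submodule K (Fin (n l + 1) → K)) (r := n l + 1)
        (by rw [finrank_top, Module.finrank_fin_fun]) le_rfl (hb l)
      rw [filter_true_of_mem (fun _ _ => Submodule.mem_top)] at h2
      exact h2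
    calc _ ≤ ∏ l ∈ univ.erase i, c l * (b l : ℝ) ^ (dg K * (n l + 1)) :=
          prod_le_prod (fun _ _ => by positivity) h1
      _ = (∏ l ∈ univ.erase i, c l) * ∏ l ∈ univ.erase i, (b l : ℝ) ^ (dg K * (n l + 1)) :=
          prod_mul_distrib
      _ ≤ _ := mul_le_mul_of_nonneg_right (prod_le_univ _ c hc1)
          (prod_nonneg fun _ _ => by positivity)
  -- the cardinality of `R3`
  have hcardR3 : ∀ j ∈ univ.erase i, ∀ e ∈ Icc 1 k, ((R3 j e).card : ℝ) ≤
      D * ((TT f e j b').card * (b j : ℝ) ^ (dg K * (n j + 1 - k + e))) := by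
    intro j hj e he
    rw [mem_Icc] at he
    have hji := ne_of_mem_erase hj
    have h1 := card_fib (R3 j e) (TT f e j b') j
      (fun Q => (bx K (n j + 1) (b' j)).filter (· ∈ Vs f Q j))
      (fun P hP => (mem_filter.mp hP).2.1) (fun P hP => by
        rw [mem_filter, Vs_update]
        have h2 := mem_filter.mp hP
        exact ⟨Fintype.mem_piFinset.mp h2.1 j, h2.2.2⟩)
    have h3 : ∀ Q ∈ TT f e j b', (((bx K (n j + 1) (b' j)).filter (· ∈ Vs f Q j)).card : ℝ) ≤
        D * (b j : ℝ) ^ (dg K * (n j + 1 - k + e)) := by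
      intro Q hQ
      unfold TT at hQ
      rw [mem_filter] at hQ
      have h4 := finrank_Vs f Q j
      have h5 := hkn j
      have h6 := box_le hDB (Vs f Q j) (r := n j + 1 - k + e) (by omega) (by omega) (hb j)
      rw [hb'n j hji]
      refine h6.trans ?_
      exact mul_le_mul_of_nonneg_right (hcD j) (by positivity)
    calc ((R3 j e).card : ℝ) ≤
          ∑ Q ∈ TT f e j b', (((bx K (n j + 1) (b' j)).filter (· ∈ Vs f Q j)).card : ℝ) := by
          exact_mod_cast h1
      _ ≤ ∑ Q ∈ TT f e j b', D * (b j : ℝ) ^ (dg K * (n j + 1 - k + e)) := sum_le_sum h3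
      _ = _ := by
          rw [sum_const, nsmul_eq_mul]
          ring
  have step4 : (((FF f b' ∪ (R2 ∪ (univ.erase i).biUnion fun j =>
      (Icc 1 k).biUnion fun e => R3 j e)).card : ℕ) : ℝ) ≤ (FF f b').card +
      D * (∑ j ∈ univ.erase i, ∑ e ∈ Icc 1 k,
        (TT f e j b').card * (b j : ℝ) ^ (dg K * (n j + 1 - k + e))) +
      D * ∏ l ∈ univ.erase i, (b l : ℝ) ^ (dg K * (n l + 1)) := by
    have h1 : (FF f b' ∪ (R2 ∪ (univ.erase i).biUnion fun j =>
        (Icc 1 k).biUnion fun e => R3 j e)).card ≤ (FF f b').card + (R2.card +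
        ∑ j ∈ univ.erase i, ∑ e ∈ Icc 1 k, (R3 j e).card) := by
      refine (card_union_le _ _).trans (Nat.add_le_add_left ?_ _)
      refine (card_union_le _ _).trans (Nat.add_le_add_left ?_ _)
      refine card_biUnion_le.trans (sum_le_sum fun j _ => card_biUnion_le)
    have h2 : (((FF f b' ∪ (R2 ∪ (univ.erase i).biUnion fun j =>
        (Icc 1 k).biUnion fun e => R3 j e)).card : ℕ) : ℝ) ≤ (FF f b').card + (R2.card +
        ∑ j ∈ univ.erase i, ∑ e ∈ Icc 1 k, ((R3 j e).card : ℝ)) := by exact_mod_cast h1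
    have h3 : ∑ j ∈ univ.erase i, ∑ e ∈ Icc 1 k, ((R3 j e).card : ℝ) ≤
        D * (∑ j ∈ univ.erase i, ∑ e ∈ Icc 1 k,
          (TT f e j b').card * (b j : ℝ) ^ (dg K * (n j + 1 - k + e))) := by
      rw [mul_sum]
      refine sum_le_sum fun j hj => ?_
      rw [mul_sum]
      exact sum_le_sum fun e he => hcardR3 j hj e he
    linarith
  have hpos : (0 : ℝ) ≤ (3 * (b i : ℝ) / ρ) ^ (dg K * (n i + 1 - k)) := by positivity
  calc (A.card : ℝ) ≤ ∑ Q ∈ S, (3 * (b i : ℝ) / ρ) ^ (dg K * (n i + 1 - k)) *
        (((bx K (n i + 1) ρ).filter (· ∈ Vs f Q i)).card : ℝ) := step1.trans (sum_le_sum step2)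
    _ = (3 * (b i : ℝ) / ρ) ^ (dg K * (n i + 1 - k)) *
        ((∑ Q ∈ S, ((bx K (n i + 1) ρ).filter (· ∈ Vs f Q i)).card : ℕ) : ℝ) := by
        rw [← mul_sum, Nat.cast_sum]
    _ ≤ _ := by
        refine mul_le_mul_of_nonneg_left ?_ hpos
        refine le_trans ?_ step4
        exact_mod_cast step3

end Pool.Agent.Q92.MM
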